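import Mathlib
import Pool.Agent.H69.PythM.NG

/-!
# Pythagorean triples, bounded multiplicative functions and additive characters

A function `f` on the positive integers is multiplicative if `f(m n) = f(m) f(n)` for all COPRIME
`m`, `n`, and completely multiplicative if this is true for all `m`, `n`. For completely
multiplicative functions with finitely many values it is known that the colouring given by their
values has monochromatic Pythagorean triples (Frantzikinakis, Klurman and Moreira; the library has
more general statements). We prove this for multiplicative functions, with arbitrary values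
`f(p ^ k)` at the prime powers, and we do not need finitely many values: for finitely many bounded
multiplicative functions `f i` with complex values and `ε > 0` there are arbitrarily large
Pythagorean triples `x, y, z` with `|f i x - f i y| < ε` and `|f i y - f i z| < ε` for all `i`. At the same time
multiplicative functions with finitely many values in any semigroup can be kept constant, and
additive characters `n ↦ ω ^ n`, `|ω| = 1`, can be kept close to one. (Examples: `exp(2 π i ∑_{p | n} a(p, v_p(n)))` with arbitrary real `a(p, k)`; the number of
divisors, the sum of the divisors, Euler's function and the number of representations as a sum of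
two squares (divided by four) modulo `d`.)

The general theorem is on the functions `G(m n) = G(m) G(n)`, `m`, `n` coprime, with values in a
compact commutative monoid with continuous multiplication (and the topology of a pseudometric), and
on finite colourings `c` for which the colour of a product of two coprime integers is determined by
the colours of the factors. The dilates `n ↦ c(m n)` of such a colouring are independent of each
other in general, so that the results on tame colourings and on totally bounded dilates do not
apply.

Proof. Replace the metric `d` by `sup_a d(a x, a y)`. Let `P` be an even number such that all colours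
(of small cells of the compact monoid) of integers prime to `P` are recurrent, and let `v_s` be
limits of `G(n)` for `n` of the colour `s` with only large prime factors. By the pigeonhole principle
there are numbers `N₁`, `N₂` and a product `e` of powers of the `v_s` such that for all `l`, `z`
there is a number `h ≤ N₁` such that `e v_l ^ (2 h)` and `e v_z ^ h` are close to `e`, and for all
`s` there is a number `H ≤ N₂` such that `e v_s ^ H` is very close to `e`. Let `X` be an infinite set
of exponents `t` for which the colour of `P ^ t` does not depend on `t`, and let `t₀ ∈ X`. From the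
theorem of Hales and Jewett we get pairs `a, b` of coprime integers such that `a + (u / w) b` has the
colour `l` for all `u`, `w` from a given finite set of integers, where `b` is divisible by all given
numbers, `a` is congruent to one modulo these numbers, `2 b = P ^ (t - t₀) b'` with `t ∈ X` and with
`b'` prime to `P`, and `e G(b')` is close to `e v_l`. (For the last condition `b = k d` with a number
`k` which is chosen, after the words of the theorem of Hales and Jewett have been fixed, among
finitely many numbers with only large prime factors.) By the pigeonhole principle one can assume that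
`l` and the colour `z` of `a ^ 2 + b ^ 2` are the same for all these pairs. Now multiply `h`
Gaussian integers `b + i a` of this kind, each generic with respect to the product of the preceding
ones: `D' + i N' = (D + i N) (b + i a)`. Then `N' = D (a + (N / D) b)`, `- D' = N (a - (D / N) b)`,
`D' + N' = (D - N) (a + ((D + N) / (D - N)) b)`, `N' - D' = (D + N) (a - ((D - N) / (D + N)) b)` are
products of coprime factors, the second ones having the colour `l`. So for the triple
`2 N D = P ^ (t - t₀) W`, `D ^ 2 - N ^ 2`, `D ^ 2 + N ^ 2` the values of `G` at `W` and
`D ^ 2 - N ^ 2` are close to `v_l ^ (2 h)` and the value at `D ^ 2 + N ^ 2` is close to `v_z ^ h`, up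
to multiplication by `e`. Multiply the triple by `P ^ t₀` and by a number `k` prime to everything at
which the value of `G` is close to `e` and for which `ω ^ (d k)` is very close to one for the given
additive characters. Here `d` is a divisor of `P` such that the group generated by the numbers
`ω ^ d` has no torsion; then for all `N` there are integers `n`, congruent to one modulo `N`, such
that all `ω ^ (d n)` are close to one, because the averages of trigonometric polynomials over all
integers and over the integers congruent to one are the same. One of the limits from which `e` is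
formed is a limit of the values of `G` at such integers.

A bounded multiplicative function with complex values is a quotient of two multiplicative functions
with values in the unit disc, the denominator being bounded away from zero.
-/

set_option autoImplicit false

namespace Pool.Agent.Results.MP_0f91f8_co.CoprimeProducts

/-- The colour of a product of coprime positive integers is determined by the colours of the
factors: if `m` and `m'` have the same colour and `n` is prime to `m` and to `m'`, then `n m` and
`n m'` have the same colour. -/
def CoprimeCongruence {C : Type*} (c : ℕ → C) : Prop :=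
  ∀ m m' n : ℕ, 0 < m → 0 < m' → 0 < n → n.Coprime m → n.Coprime m' → c m = c m' →
    c (n * m) = c (n * m')

/-- `f (m n) = f m * f n` for all coprime positive integers `m`, `n`. -/
def Multiplicative {S : Type*} [Mul S] (f : ℕ → S) : Prop :=
  ∀ m n : ℕ, 0 < m → 0 < n → m.Coprime n → f (m * n) = f m * f n

/-- The exponents of the primes `p ∈ E` in the factorisation of `n`. -/
def exponents (E : Finset ℕ) (n : ℕ) : E → ℕ := fun p => n.factorization p

/-- **Theorem.** (1) Let `c` be a colouring of the positive integers by finitely many colours in
which the colour of a product of two coprime integers is determined by the colours of the factors,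
let `χ` be an arbitrary colouring, by finitely many colours, of the vectors of the exponents of
finitely many primes, let `G` be a multiplicative function with values in a compact commutative
monoid `K` with continuous multiplication whose topology is given by a pseudometric, and let `ω i` be
finitely many complex numbers of modulus one. For every `ε > 0` there are arbitrarily large
Pythagorean triples `x, y, z` on which `c` and `χ` are constant, with `dist (G x) (G y) < ε`,
`dist (G y) (G z) < ε` and with `ω i ^ x`, `ω i ^ y`, `ω i ^ z` at a distance less than `ε` from one.
(2) In particular, let `f i` be finitely many bounded multiplicative functions with complex values,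
let `g j` be finitely many multiplicative functions, each of them with finitely many values, and let
`ω i` be finitely many complex numbers of modulus one. For every `ε > 0` there are arbitrarily large
Pythagorean triples `x, y, z` with `|f i x - f i y| < ε`, `|f i y - f i z| < ε`,
`g j x = g j y = g j z` and `|ω i ^ x - 1|, |ω i ^ y - 1|, |ω i ^ z - 1| < ε` for all `i`, `j`. -/
theorem result :
    (∀ (C κ K : Type*) [Finite C] [Finite κ] [CommMonoid K] [PseudoMetricSpace K] [CompactSpace K]
      [ContinuousMul K] (c : ℕ → C), CoprimeCongruence c →
      ∀ E : Finset ℕ, (∀ p ∈ E, p.Prime) → ∀ (χ : (E → ℕ) → κ) (G : ℕ → K), Multiplicative G →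
      ∀ (s : ℕ) (ω : Fin s → ℂ), (∀ i, ‖ω i‖ = 1) → ∀ ε : ℝ, 0 < ε → ∀ B : ℕ,
      ∃ x y z : ℕ, B < x ∧ B < y ∧ B < z ∧ x ^ 2 + y ^ 2 = z ^ 2 ∧
        c x = c y ∧ c y = c z ∧
        χ (exponents E x) = χ (exponents E y) ∧ χ (exponents E y) = χ (exponents E z) ∧
        dist (G x) (G y) < ε ∧ dist (G y) (G z) < ε ∧
        ∀ i, ‖ω i ^ x - 1‖ < ε ∧ ‖ω i ^ y - 1‖ < ε ∧ ‖ω i ^ z - 1‖ < ε) ∧
    (∀ (k l : ℕ) (f : Fin k → ℕ → ℂ), (∀ i, Multiplicative (f i)) →
      (∀ i, ∃ M : ℝ, ∀ n, 0 < n → ‖f i n‖ ≤ M) →
      ∀ (S : Fin l → Type*) [∀ j, Mul (S j)] (g : ∀ j, ℕ → S j), (∀ j, Multiplicative (g j)) →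
      (∀ j, (g j '' {n | 0 < n}).Finite) →
      ∀ (s : ℕ) (ω : Fin s → ℂ), (∀ i, ‖ω i‖ = 1) → ∀ ε : ℝ, 0 < ε → ∀ B : ℕ,
      ∃ x y z : ℕ, B < x ∧ B < y ∧ B < z ∧ x ^ 2 + y ^ 2 = z ^ 2 ∧
        (∀ i, ‖f i x - f i y‖ < ε ∧ ‖f i y - f i z‖ < ε) ∧
        (∀ j, g j x = g j y ∧ g j y = g j z) ∧
        ∀ i, ‖ω i ^ x - 1‖ < ε ∧ ‖ω i ^ y - 1‖ < ε ∧ ‖ω i ^ z - 1‖ < ε) := by
  constructor
  · intro C κ K _ _ _ _ _ _ c hc E hE χ G hG s ω hω ε hε B
    exact Pool.Agent.H69.MultM.main_cont hc E hE χ K G hG ω hω ε hε B
  · intro k l f hf hb S _ g hg hfin s ω hω ε hε B
    choose M hM using hb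
    have hpair := fun i => Pool.Agent.H69.MultM.exists_pair (hf i) (hM i)
    choose G hG hGf using hpair
    choose δ hδ0 hδ using fun i => hGf i ε hε
    -- the finitely many values
    have hfin' : ∀ i, Finite (g i '' {n | 0 < n}) := fun i => (hfin i).to_subtype
    let c : ℕ → ∀ i, (g i '' {n | 0 < n} : Set (S i)) := fun n i =>
      ⟨g i (if 0 < n then n else 1), ⟨if 0 < n then n else 1, by
        split_ifs with h
        · exact h
        · exact Nat.one_pos, rfl⟩⟩
    have hcn : ∀ n i, 0 < n → (c n i : S i) = g i n := by
      intro n i hn
      simp [c, hn]
    have hc : Pool.Agent.H69.Mult.CoprimeCongruence c := by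
      intro m m' n hm hm' hn h h' hmm
      funext i
      apply Subtype.ext
      have h1 : (c m i : S i) = c m' i := by rw [hmm]
      rw [hcn _ _ hm, hcn _ _ hm'] at h1
      rw [hcn _ _ (Nat.mul_pos hn hm), hcn _ _ (Nat.mul_pos hn hm'), hg i n m hn hm h,
        hg i n m' hn hm' h', h1]
    -- the smallest of the numbers `δ i`
    obtain ⟨d, hd0, hdε, hd⟩ : ∃ d : ℝ, 0 < d ∧ d ≤ ε ∧ ∀ i, d ≤ δ i := by
      rcases Nat.eq_zero_or_pos k with rfl | hk
      · exact ⟨ε, hε, le_rfl, fun i => i.elim0⟩
      · have : Nonempty (Fin k) := ⟨⟨0, hk⟩⟩
        obtain ⟨i0, hi0⟩ := Finite.exists_min δ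
        exact ⟨min ε (δ i0), lt_min hε (hδ0 i0), min_le_left _ _,
          fun i => (min_le_right _ _).trans (hi0 i)⟩
    obtain ⟨x, y, z, hx, hy, hz, h, h1, h2, -, -, h3, h4, h5⟩ :=
      Pool.Agent.H69.MultM.main_cont hc ∅ (by simp) (fun _ => ())
        (Fin k → Pool.Agent.H69.MultM.Disc × Pool.Agent.H69.MultM.Disc) (fun n i => G i n)
        (fun m n hm hn hmn => funext fun i => hG i m n hm hn hmn) ω hω d hd0 B
    refine ⟨x, y, z, hx, hy, hz, h, fun i => ⟨?_, ?_⟩, fun i => ⟨?_, ?_⟩, fun i =>
      ⟨(h5 i).1.trans_le hdε, (h5 i).2.1.trans_le hdε, (h5 i).2.2.trans_le hdε⟩⟩
    · exact hδ i x y (by omega) (by omega)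
        (((dist_le_pi_dist _ _ i).trans_lt h3).trans_le (hd i))
    · exact hδ i y z (by omega) (by omega)
        (((dist_le_pi_dist _ _ i).trans_lt h4).trans_le (hd i))
    · rw [← hcn x i (by omega), ← hcn y i (by omega), h1]
    · rw [← hcn y i (by omega), ← hcn z i (by omega), h2]

end Pool.Agent.Results.MP_0f91f8_co.CoprimeProducts
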