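import Mathlib
import Pool.Agent.H69.Pyth.Prop

/-!
# Sets without Pythagorean triples: a positive proportion of the tuples of dilates is independent

Let `μ` be a finitely additive probability measure on the positive integers which is invariant under
dilations. We prove that for all `k`, `α > 0` and `δ > 0` there are positive numbers `c` and `η`,
depending only on `k`, `α`, `δ`, with the following property. Let `A` be ANY set with `μ(A) ≥ α` such
that `μ {n : x n, y n, z n ∈ A} < μ(A) ^ 4 / 1000` for all Pythagorean triples `x, y, z` (for
instance, a set without Pythagorean triples). Then, for all large `N`, in every set `U` of primes up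
to `N` which contains at least the proportion `δ` of these primes, at least `c π(N) ^ k` of the
`k`-tuples `v_1, …, v_k` are such that the sets `A / v_1, …, A / v_k` are `η`-independent: each of
the `2 ^ k` atoms of the algebra generated by these sets has measure at least `η`. The same is true
for sets `U` of integers (with `N` instead of `π(N)`).

In particular, in every colouring with `r` colours and without monochromatic Pythagorean triples some
colour class `A` (with `μ(A) ≥ 1 / r`) has the property that for all large `N` a positive proportion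
`c(k, r)` of the `k`-tuples of primes up to `N` is shattered by `A`: for every set `J` of indices
there are integers `n` such that `v_i n` is in `A` exactly if `i ∈ J`. The measures of all these
patterns are at least `η(k, r)`. So the classes of such a colouring have to be independent, to a
quantitative extent, at a positive proportion of all tuples of primes. The starting result
`AlmostAllPairs` says that for almost all pairs of primes (or integers) `k, l` the sets `A / k` and
`A / l` are different (have distance at least `α ^ 6 / 800000`).

Proof. By `AlmostAllPairs` (module `K7.H15.Pyth.Pairs`) almost all `m`-tuples consist of sets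
`A / u_i` with distances at least `ε = α ^ 6 / 800000`. If `m` is large, there are few points which
separate all pairs of these sets (even after the atoms of small measure are omitted). By the lemma of
Sauer and Shelah `2 ^ k` of these points are shattered by the sets, so `k` of the sets shatter
(dually) these points, which lie in atoms that are not small. Hence each of almost all `m`-tuples
contains an `η`-independent `k`-tuple, and the result follows by averaging.
-/

set_option autoImplicit false

open Filter

namespace Pool.Agent.Results.MP_0f91f8_co.IndependentTuples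

/-- The dilate `A / m = {n : m n ∈ A}`. -/
def dilate (m : ℕ) (A : Set ℕ) : Set ℕ := {n | m * n ∈ A}

/-- A finitely additive probability measure on the positive integers, invariant under dilations. -/
structure InvariantMean (μ : Set ℕ → ℝ) : Prop where
  nonneg : ∀ A, 0 ≤ μ A
  univ : μ Set.univ = 1
  add : ∀ A B, Disjoint A B → μ (A ∪ B) = μ A + μ B
  zero : μ {0} = 0
  inv : ∀ m : ℕ, 0 < m → ∀ A, μ (dilate m A) = μ A

/-- The sets `A / v i` are `η`-independent: for every set `J` of indices the set of the `n` which are
in `A / v i` exactly for the indices `i ∈ J` has measure at least `η`. -/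
def Independent (μ : Set ℕ → ℝ) (A : Set ℕ) (η : ℝ) {k : ℕ} (v : Fin k → ℕ) : Prop :=
  ∀ J : Finset (Fin k), η ≤ μ {n | ∀ i, (n ∈ dilate (v i) A ↔ i ∈ J)}

open Pool.Agent.R329.VC Pool.Agent.K7.H15.Pyth in
theorem mean_iff {μ : Set ℕ → ℝ} (h : InvariantMean μ) : IsInvariantMean μ :=
  { nonneg := h.nonneg, univ := h.univ, add := h.add, zero := h.zero, inv := h.inv }

open Classical in
theorem card_eq {μ : Set ℕ → ℝ} {A : Set ℕ} {η : ℝ} {k : ℕ} (U : Finset ℕ) :
    (((Fintype.piFinset fun _ : Fin k => U).filter fun v =>
      ∀ J : Finset (Fin k), η ≤ μ {n | ∀ i, (v i * n ∈ A ↔ i ∈ J)}).card : ℝ) =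
    ({v : Fin k → ℕ | (∀ i, v i ∈ U) ∧ Independent μ A η v}.ncard : ℝ) := by
  have h : {v : Fin k → ℕ | (∀ i, v i ∈ U) ∧ Independent μ A η v} =
      (((Fintype.piFinset fun _ : Fin k => U).filter fun v =>
        ∀ J : Finset (Fin k), η ≤ μ {n | ∀ i, (v i * n ∈ A ↔ i ∈ J)} : Finset (Fin k → ℕ)) :
          Set (Fin k → ℕ)) := by
    ext v
    rw [Finset.mem_coe, Finset.mem_filter, Fintype.mem_piFinset]
    rfl
  rw [h, Set.ncard_coe_finset]

/-- The main result; see the description above. -/
theorem result (k : ℕ) (α δ : ℝ) (hα : 0 < α) (hδ : 0 < δ) :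
    ∃ c η : ℝ, 0 < c ∧ 0 < η ∧ ∀ μ : Set ℕ → ℝ, InvariantMean μ → ∀ A : Set ℕ, α ≤ μ A →
      (∀ x y z : ℕ, 0 < x → 0 < y → 0 < z → x ^ 2 + y ^ 2 = z ^ 2 →
        μ {n | x * n ∈ A ∧ y * n ∈ A ∧ z * n ∈ A} < (μ A) ^ 4 / 1000) →
      ∀ᶠ N : ℕ in atTop,
        -- tuples of primes
        (∀ U : Finset ℕ, (∀ p ∈ U, p.Prime ∧ p ≤ N) → δ * Nat.primeCounting N ≤ U.card →
          c * (Nat.primeCounting N : ℝ) ^ k ≤
            ({v : Fin k → ℕ | (∀ i, v i ∈ U) ∧ Independent μ A η v}.ncard : ℝ)) ∧
        -- tuples of integers
        (∀ U : Finset ℕ, (∀ m ∈ U, 0 < m ∧ m ≤ N) → δ * N ≤ U.card →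
          c * (N : ℝ) ^ k ≤
            ({v : Fin k → ℕ | (∀ i, v i ∈ U) ∧ Independent μ A η v}.ncard : ℝ)) := by
  classical
  obtain ⟨c, η, hc, hη, h⟩ := Pool.Agent.H69.Pyth.prop_main k hα hδ
  refine ⟨c, η, hc, hη, fun μ hμ A hA hno => ?_⟩
  filter_upwards [h μ (mean_iff hμ) A hA hno] with N hN
  constructor
  · intro U hU hd
    rw [← card_eq]
    refine (hN.2 U (fun p hp => ?_) hd).trans (le_of_eq (by congr!))
    have := hU p hp
    rw [Finset.mem_filter, Finset.mem_Ioc]
    exact ⟨⟨this.1.pos, this.2⟩, this.1⟩
  · intro U hU hd
    rw [← card_eq]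
    refine (hN.1 U (fun p hp => ?_) hd).trans (le_of_eq (by congr!))
    rw [Finset.mem_Ioc]
    exact hU p hp

end Pool.Agent.Results.MP_0f91f8_co.IndependentTuples
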