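import Mathlib
import Pool.Agent.H69.Pyth.Quad

/-!
# Pythagorean triples in colourings which are quadratic in the exponents of the primes

A function `f` from the positive integers to an abelian group is called quadratic if its third
multiplicative differences vanish, that is, if
`f(l m n) - f(l m) - f(l n) - f(m n) + f(l) + f(m) + f(n) - f(1) = 0`. The completely multiplicative
functions (written additively) are the functions with vanishing second differences and `f(1) = 0`;
for them, and for all colourings whose dilates are totally bounded, monochromatic Pythagorean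
triples are known to exist. A quadratic function is for instance
`f(n) = ∑ α(p, q) v_p(n) v_q(n) + ∑ β(p) v_p(n)  (mod d)` with arbitrary coefficients, where the
first sum is over all pairs of primes and `v_p(n)` is the exponent of `p` in `n`; for example the
number of the pairs of prime factors `p < q` of `n` (counted with multiplicity) for which `q` is a
square modulo `p`, taken modulo `d`.

**Theorem.** Every colouring which is a function of a quadratic map to a finite abelian group has
arbitrarily large monochromatic Pythagorean triples. So every colouring which is a function of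
finitely many quadratic polynomials in the exponents of the primes, modulo `d`, has arbitrarily
large monochromatic Pythagorean triples.

The dilates `n ↦ f(m n)` of a quadratic map differ by characters `n ↦ B(m, n)`; these are infinitely
many in general and then the dilates are independent of each other (they shatter infinite sets),
and the results on totally bounded dilates (multiplicative Bohr sets, tame colourings, dilates by
primes) do not apply.

Proof. Let `f(1) = 0` and let `B(m, n) = f(m n) - f(m) - f(n)`, a bilinear form on the group `G` of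
nonzero rationals. For a character `a` of the finite group `H` let `R_a` be the radical of `a ∘ B`.
On `R_a` the function `a ∘ f` defines a character, which has an extension `F_a` to `G` of finite
order. By a theorem of B. H. Neumann there is a rational `v` which is in no `R_a` of infinite index,
but in all `R_a` of finite index and in the kernel of `F_a` for these `a`. Fix for every `a` with
`v ∉ R_a` an integer `n_a` with `a B(v, n_a) ≠ 0`. The construction of generic rationals `t` for
completely multiplicative maps (`R546.PY.exists_good`) gives a Pythagorean triple `x, y, z` such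
that `z / y` is trivial and `x / y` equals `v` with respect to finitely many characters of finite
order, namely the `B(·, n_a)`, the `F_a` and the characters of `G` modulo the `R_a` of finite index.
We look for `n` with `f(x n) = f(y n) = f(z n)`; this is a system of linear equations
`B(x / y, n) = f(y) - f(x)`, `B(z / y, n) = f(y) - f(z)`. If it has no solution, there are characters
`a, b` of `H` with `a B(x / y, n) + b B(z / y, n) = 0` for all `n`, but
`a (f(x) - f(y)) + b (f(z) - f(y)) ≠ 0`. If `R_a` has infinite index, `n = n_a` gives a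
contradiction. If the index is finite, `x / y ∈ R_a` and `a (f(x) - f(y)) = F_a(x / y) = 0`, hence
`z / y ∈ R_b` and `b (f(z) - f(y)) = F_b(z / y) = 0`, a contradiction.
-/

set_option autoImplicit false

namespace Pool.Agent.Results.MP_0f91f8_co.QuadraticInTheExponents

/-- The third multiplicative differences of `f` vanish. -/
def Quadratic {H : Type*} [AddCommGroup H] (f : ℕ → H) : Prop :=
  ∀ l m n : ℕ, 0 < l → 0 < m → 0 < n →
    f (l * m * n) + f l + f m + f n = f (l * m) + f (l * n) + f (m * n) + f 1

/-- A quadratic polynomial in the exponents of the primes: the sum of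
`α(p, q) v_p(n) v_q(n)` over all pairs of prime factors of `n` and of `β(p) v_p(n)` over all prime
factors of `n`. -/
def quadraticPolynomial (α : ℕ → ℕ → ℤ) (β : ℕ → ℤ) (n : ℕ) : ℤ :=
  ∑ p ∈ n.primeFactors, ∑ q ∈ n.primeFactors, α p q * (n.factorization p * n.factorization q) +
    ∑ p ∈ n.primeFactors, β p * n.factorization p

theorem poly_eq (α : ℕ → ℕ → ℤ) (β : ℕ → ℤ) (S : Finset ℕ) (n : ℕ) (h : n.primeFactors ⊆ S) :
    quadraticPolynomial α β n =
      ∑ p ∈ S, ∑ q ∈ S, α p q * (n.factorization p * n.factorization q) +
        ∑ p ∈ S, β p * n.factorization p := by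
  have h0 : ∀ p, p ∉ n.primeFactors → n.factorization p = 0 := by
    intro p hp
    rwa [← Nat.support_factorization, Finsupp.notMem_support_iff] at hp
  unfold quadraticPolynomial
  congr 1
  · rw [← Finset.sum_subset h]
    · refine Finset.sum_congr rfl fun p _ => ?_
      rw [← Finset.sum_subset h]
      intro q _ hq
      rw [h0 q hq]
      push_cast
      ring
    · intro p _ hp
      refine Finset.sum_eq_zero fun q _ => ?_
      rw [h0 p hp]
      push_cast
      ring
  · rw [← Finset.sum_subset h]
    intro p _ hp
    rw [h0 p hp]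
    push_cast
    ring

theorem quad_aux (S : Finset ℕ) (α : ℕ → ℕ → ℤ) (β : ℕ → ℤ) (u v w : ℕ → ℤ) :
    ((∑ p ∈ S, ∑ q ∈ S, α p q * ((u p + v p + w p) * (u q + v q + w q)) +
        ∑ p ∈ S, β p * (u p + v p + w p)) +
      (∑ p ∈ S, ∑ q ∈ S, α p q * (u p * u q) + ∑ p ∈ S, β p * u p) +
      (∑ p ∈ S, ∑ q ∈ S, α p q * (v p * v q) + ∑ p ∈ S, β p * v p) +
      (∑ p ∈ S, ∑ q ∈ S, α p q * (w p * w q) + ∑ p ∈ S, β p * w p)) =
    ((∑ p ∈ S, ∑ q ∈ S, α p q * ((u p + v p) * (u q + v q)) + ∑ p ∈ S, β p * (u p + v p)) +
      (∑ p ∈ S, ∑ q ∈ S, α p q * ((u p + w p) * (u q + w q)) + ∑ p ∈ S, β p * (u p + w p)) +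
      (∑ p ∈ S, ∑ q ∈ S, α p q * ((v p + w p) * (v q + w q)) + ∑ p ∈ S, β p * (v p + w p))) := by
  have h1 : ∑ p ∈ S, ∑ q ∈ S, α p q * ((u p + v p + w p) * (u q + v q + w q)) +
      ∑ p ∈ S, ∑ q ∈ S, α p q * (u p * u q) + ∑ p ∈ S, ∑ q ∈ S, α p q * (v p * v q) +
      ∑ p ∈ S, ∑ q ∈ S, α p q * (w p * w q) =
      ∑ p ∈ S, ∑ q ∈ S, α p q * ((u p + v p) * (u q + v q)) +
      ∑ p ∈ S, ∑ q ∈ S, α p q * ((u p + w p) * (u q + w q)) +
      ∑ p ∈ S, ∑ q ∈ S, α p q * ((v p + w p) * (v q + w q)) := by
    simp only [← Finset.sum_add_distrib]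
    refine Finset.sum_congr rfl fun p _ => Finset.sum_congr rfl fun q _ => ?_
    ring
  have h2 : ∑ p ∈ S, β p * (u p + v p + w p) + ∑ p ∈ S, β p * u p + ∑ p ∈ S, β p * v p +
      ∑ p ∈ S, β p * w p = ∑ p ∈ S, β p * (u p + v p) + ∑ p ∈ S, β p * (u p + w p) +
      ∑ p ∈ S, β p * (v p + w p) := by
    simp only [← Finset.sum_add_distrib]
    refine Finset.sum_congr rfl fun p _ => ?_
    ring
  linarith

theorem poly_quadratic (α : ℕ → ℕ → ℤ) (β : ℕ → ℤ) (l m n : ℕ) (hl : 0 < l) (hm : 0 < m)
    (hn : 0 < n) :
    quadraticPolynomial α β (l * m * n) + quadraticPolynomial α β l + quadraticPolynomial α β m +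
      quadraticPolynomial α β n = quadraticPolynomial α β (l * m) +
      quadraticPolynomial α β (l * n) + quadraticPolynomial α β (m * n) +
      quadraticPolynomial α β 1 := by
  have hl' := hl.ne'
  have hm' := hm.ne'
  have hn' := hn.ne'
  have hlm : l * m ≠ 0 := mul_ne_zero hl' hm'
  have hN : l * m * n ≠ 0 := mul_ne_zero hlm hn'
  set S := (l * m * n).primeFactors with hS
  have hsub : ∀ k : ℕ, k ∣ l * m * n → k.primeFactors ⊆ S := fun k hk =>
    Nat.primeFactors_mono hk hN
  rw [poly_eq α β S (l * m * n) subset_rfl, poly_eq α β S l (hsub l ⟨m * n, by ring⟩),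
    poly_eq α β S m (hsub m ⟨l * n, by ring⟩), poly_eq α β S n (hsub n ⟨l * m, by ring⟩),
    poly_eq α β S (l * m) (hsub _ ⟨n, by ring⟩), poly_eq α β S (l * n) (hsub _ ⟨m, by ring⟩),
    poly_eq α β S (m * n) (hsub _ ⟨l, by ring⟩), poly_eq α β S 1 (hsub 1 (one_dvd _))]
  rw [Nat.factorization_mul hlm hn', Nat.factorization_mul hl' hm', Nat.factorization_mul hl' hn',
    Nat.factorization_mul hm' hn', Nat.factorization_one]
  have key := quad_aux S α β (fun p => (l.factorization p : ℤ)) (fun p => (m.factorization p : ℤ))
    (fun p => (n.factorization p : ℤ))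
  simp only [Finsupp.add_apply, Finsupp.coe_zero, Pi.zero_apply, Nat.cast_add, Nat.cast_zero,
    mul_zero, Finset.sum_const_zero, add_zero]
  exact key

/-- **Theorem.** (1) Let `f` be a quadratic map to a finite abelian group and `c` a colouring of the
positive integers which is a function of `f`. Then `c` has arbitrarily large monochromatic
Pythagorean triples. (2) In particular this holds if `c` is a function of the residues modulo `d` of
finitely many quadratic polynomials in the exponents of the primes, with arbitrary
coefficients. -/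
theorem result :
    (∀ (H : Type*) [AddCommGroup H] [Finite H] (f : ℕ → H), Quadratic f →
      ∀ (C : Type*) (c : ℕ → C), (∀ m n : ℕ, 0 < m → 0 < n → f m = f n → c m = c n) →
        ∀ K : ℕ, ∃ x y z : ℕ, K < x ∧ K < y ∧ K < z ∧ x ^ 2 + y ^ 2 = z ^ 2 ∧
          c x = c y ∧ c y = c z) ∧
    (∀ (k d : ℕ), 0 < d → ∀ (α : Fin k → ℕ → ℕ → ℤ) (β : Fin k → ℕ → ℤ) (C : Type*) (c : ℕ → C),
      (∀ m n : ℕ, 0 < m → 0 < n →
        (∀ i, quadraticPolynomial (α i) (β i) m ≡ quadraticPolynomial (α i) (β i) n [ZMOD d]) →
        c m = c n) →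
        ∀ K : ℕ, ∃ x y z : ℕ, K < x ∧ K < y ∧ K < z ∧ x ^ 2 + y ^ 2 = z ^ 2 ∧
          c x = c y ∧ c y = c z) := by
  constructor
  · intro H _ _ f hf C c hc K
    obtain ⟨x, y, z, hx, hy, hz, h, h1, h2⟩ := Pool.Agent.H69.Quad.main (f := f) hf K
    exact ⟨x, y, z, hx, hy, hz, h, hc x y (by omega) (by omega) h1,
      hc y z (by omega) (by omega) h2⟩
  · intro k d hd α β C c hc K
    have : NeZero d := ⟨hd.ne'⟩
    have hq : Pool.Agent.H69.Quad.Quadratic
        (fun n : ℕ => fun i : Fin k => ((quadraticPolynomial (α i) (β i) n : ℤ) : ZMod d)) := by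
      intro l m n hl hm hn
      funext i
      have := congrArg (fun t : ℤ => (t : ZMod d)) (poly_quadratic (α i) (β i) l m n hl hm hn)
      simpa using this
    obtain ⟨x, y, z, hx, hy, hz, h, h1, h2⟩ := Pool.Agent.H69.Quad.main hq K
    refine ⟨x, y, z, hx, hy, hz, h, hc x y (by omega) (by omega) fun i => ?_,
      hc y z (by omega) (by omega) fun i => ?_⟩
    · exact (ZMod.intCast_eq_intCast_iff _ _ _).1 (congrFun h1 i)
    · exact (ZMod.intCast_eq_intCast_iff _ _ _).1 (congrFun h2 i)

end Pool.Agent.Results.MP_0f91f8_co.QuadraticInTheExponents
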