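import Mathlib
import Pool.Agent.H69.Pyth.Shat

/-!
# Pythagorean triples and shattering inside dense sets of integers or of primes

Let `μ` be a finitely additive probability measure on the positive integers which is invariant under
dilations. Let `M` be a set of positive upper density, or a set of primes of positive relative upper
density, or any set which is rich in arithmetic progressions (every finite colouring of `M` has
arbitrarily long monochromatic progressions). We say that `B` shatters an infinite subset of `M` if
there is an infinite `X ⊆ M` such that for all finite `T ⊆ S ⊆ X` the set of the `n` with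
`m n ∈ B ↔ m ∈ T` for all `m ∈ S` has positive measure; that is, the dilates `B / m`, `m ∈ X`, are
independent.

**Theorem.** Let `B_1, …, B_k` be sets of integers and let `C` be any Boolean combination of them. If
a set `A` fills more than two thirds of `C` then `A ∩ C` contains Pythagorean triples (even: some
triple has a set of dilations of positive measure in `A ∩ C`), or one of the `B_i` shatters an
infinite subset of `M`. A colouring which is, outside a set of measure less than `1 / 3`, a function
of `B_1, …, B_k` has monochromatic Pythagorean triples, or one of the `B_i` shatters an infinite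
subset of `M`.

In particular, let `c` be any finite colouring without monochromatic Pythagorean triples and `g` any
colouring which agrees with `c` outside a set of measure less than `1 / 3` (for instance `g = c`).
Then every set `M` as above, however sparse the primes in it are distributed, has an infinite subset
`X` which is shattered by one of the classes of `g`. The set `M` can be chosen at will: a colouring
without monochromatic triples is as complicated as possible inside every dense set of integers and
inside every dense set of primes.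

The theorem with `M` the set of all positive integers and a smaller constant is the starting result
`NoInfiniteShattering`; that proof (by multiplicative characters) needs the dilations by all integers
and does not apply to subsets `M`. Here the density increment argument of `PrimeDilates` (module
`K7.H15.Pyth.Rel`) is used for the algebra of all sets whose dilates by the elements of `M` are
totally bounded.
-/

set_option autoImplicit false

open Filter

namespace Pool.Agent.Results.MP_0f91f8_co.ShatteringInRichSets

/-- The dilate `A / m = {n : m n ∈ A}`. -/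
def dilate (m : ℕ) (A : Set ℕ) : Set ℕ := {n | m * n ∈ A}

/-- A finitely additive probability measure on the positive integers, invariant under dilations. -/
structure InvariantMean (μ : Set ℕ → ℝ) : Prop where
  nonneg : ∀ A, 0 ≤ μ A
  univ : μ Set.univ = 1
  add : ∀ A B, Disjoint A B → μ (A ∪ B) = μ A + μ B
  zero : μ {0} = 0
  inv : ∀ m : ℕ, 0 < m → ∀ A, μ (dilate m A) = μ A

/-- `M` has positive upper density. -/
def DenseIntegers (M : Set ℕ) : Prop := ∃ δ : ℝ, 0 < δ ∧
  ∃ᶠ N : ℕ in atTop, δ * N ≤ ({n : ℕ | n ∈ M ∧ 0 < n ∧ n ≤ N}.ncard : ℝ)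

/-- `M` is a set of primes of positive relative upper density. -/
def DensePrimes (M : Set ℕ) : Prop := (∀ p ∈ M, p.Prime) ∧
  ∃ δ : ℝ, 0 < δ ∧ ∃ᶠ N : ℕ in atTop, δ * Nat.primeCounting N ≤ ({p : ℕ | p ∈ M ∧ p ≤ N}.ncard : ℝ)

/-- Every finite colouring of `M` has arbitrarily long monochromatic arithmetic progressions of
positive integers. -/
def RichInProgressions (M : Set ℕ) : Prop := ∀ (k : ℕ) (f : ℕ → Fin k) (L : ℕ),
  ∃ a d : ℕ, 0 < a ∧ 0 < d ∧ ∀ i < L, a + i * d ∈ M ∧ f (a + i * d) = f a

/-- There is an infinite subset `X` of `M` such that the dilates `B / m`, `m ∈ X`, are independent: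
for all finite `T ⊆ S ⊆ X` the set of the `n` with `m n ∈ B ↔ m ∈ T` for all `m ∈ S` has positive
measure. -/
def ShattersInfiniteSubset (μ : Set ℕ → ℝ) (B M : Set ℕ) : Prop := ∃ X : Set ℕ, X ⊆ M ∧
  X.Infinite ∧ ∀ S T : Finset ℕ, (∀ m ∈ S, m ∈ X) → T ⊆ S →
    0 < μ {n | ∀ m ∈ S, (m * n ∈ B ↔ m ∈ T)}

open Pool.Agent.R329.VC Pool.Agent.K7.H15.Pyth in
theorem mean_iff {μ : Set ℕ → ℝ} (h : InvariantMean μ) : IsInvariantMean μ :=
  { nonneg := h.nonneg, univ := h.univ, add := h.add, zero := h.zero, inv := h.inv }

open Pool.Agent.K7.H15.Pyth in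
theorem dense_iff {P : Set ℕ} (h : DensePrimes P) : PosRel P := by
  classical
  obtain ⟨h1, δ, hδ, h2⟩ := h
  refine ⟨h1, δ, hδ, h2.mono fun N hN => ?_⟩
  have h3 : {p : ℕ | p ∈ P ∧ p ≤ N} = (((Finset.Ioc 0 N).filter (· ∈ P) : Finset ℕ) : Set ℕ) := by
    ext p
    rw [Finset.coe_filter, Set.mem_ofPred_eq, Set.mem_ofPred_eq, Finset.mem_Ioc]
    constructor
    · rintro ⟨h3, h4⟩
      exact ⟨⟨(h1 p h3).pos, h4⟩, h3⟩
    · rintro ⟨⟨h3, h4⟩, h5⟩
      exact ⟨h5, h4⟩
  rw [h3, Set.ncard_coe_finset] at hN
  convert hN

/-- The main result; see the description above. -/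
theorem result (μ : Set ℕ → ℝ) (hμ : InvariantMean μ) (M : Set ℕ)
    (hM : DenseIntegers M ∨ DensePrimes M ∨ RichInProgressions M) (k : ℕ) (B : Fin k → Set ℕ) :
    -- relatively dense subsets of Boolean combinations of the sets `B i`
    (∀ (F : (Fin k → Prop) → Prop) (A C : Set ℕ), C = {n | F (fun i => n ∈ B i)} →
      2 / 3 * μ C < μ (A ∩ C) →
      (∃ i, ShattersInfiniteSubset μ (B i) M) ∨
      ∃ x y z : ℕ, 0 < x ∧ 0 < y ∧ 0 < z ∧ x ^ 2 + y ^ 2 = z ^ 2 ∧
        0 < μ {n | x * n ∈ A ∩ C ∧ y * n ∈ A ∩ C ∧ z * n ∈ A ∩ C}) ∧
    -- colourings close to functions of the sets `B i`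
    (∀ (r : ℕ) (G : (Fin k → Prop) → Fin r) (c : ℕ → Fin r),
      μ {n | c n ≠ G (fun i => n ∈ B i)} < 1 / 3 →
      (∃ i, ShattersInfiniteSubset μ (B i) M) ∨
      ∃ x y z : ℕ, 0 < x ∧ 0 < y ∧ 0 < z ∧ x ^ 2 + y ^ 2 = z ^ 2 ∧
        0 < μ {n | c (x * n) = c (y * n) ∧ c (y * n) = c (z * n)}) := by
  have hμ' := mean_iff hμ
  have hM' : Pool.Agent.H69.Pyth.APRich M := by
    rcases hM with h | h | h
    · exact Pool.Agent.H69.Pyth.PosUpper.rich h
    · exact Pool.Agent.H69.Pyth.richP (dense_iff h)
    · exact h
  constructor
  · intro F A C hC hAC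
    by_cases hB : ∃ i, ShattersInfiniteSubset μ (B i) M
    · exact Or.inl hB
    · push Not at hB
      exact Or.inr (Pool.Agent.H69.Pyth.shat_main hμ' hM' B hB F hC hAC)
  · intro r G c hc
    by_cases hB : ∃ i, ShattersInfiniteSubset μ (B i) M
    · exact Or.inl hB
    · push Not at hB
      exact Or.inr (Pool.Agent.H69.Pyth.shat_colour hμ' hM' B hB G c hc)

end Pool.Agent.Results.MP_0f91f8_co.ShatteringInRichSets
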